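import Mathlib

open MeasureTheory ProbabilityTheory Set Filter
open scoped NNReal Topology ENNReal

namespace Pool.Agent.Results.MP_367e1f_pr.SpanSetRegular

/-- The span set on `[0, 1]` of a path `f`: all `t - s` with `0 ≤ s ≤ t ≤ 1` and `f s = f t`. -/
def spanSet (f : ℝ≥0 → ℝ) : Set ℝ :=
  {u | ∃ s t : ℝ≥0, s ≤ t ∧ t ≤ 1 ∧ f s = f t ∧ u = (t : ℝ) - (s : ℝ)}

/-! ### Deterministic part -/

/-- The span set of a function on the real line, only used in the proof. -/
def Sp (g : ℝ → ℝ) : Set ℝ :=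
  {u | ∃ s t : ℝ, 0 ≤ s ∧ s ≤ t ∧ t ≤ 1 ∧ g s = g t ∧ u = t - s}

lemma isClosed_Sp {g : ℝ → ℝ} (hg : Continuous g) : IsClosed (Sp g) := by
  have hK : IsCompact {p : ℝ × ℝ | (0 ≤ p.1 ∧ p.1 ≤ p.2 ∧ p.2 ≤ 1) ∧ g p.1 = g p.2} := by
    have h1 : IsCompact (Icc (0 : ℝ) 1 ×ˢ Icc (0 : ℝ) 1) := isCompact_Icc.prod isCompact_Icc
    refine h1.of_isClosed_subset ?_ ?_
    · have e : {p : ℝ × ℝ | (0 ≤ p.1 ∧ p.1 ≤ p.2 ∧ p.2 ≤ 1) ∧ g p.1 = g p.2} =
        {p : ℝ × ℝ | 0 ≤ p.1} ∩ {p : ℝ × ℝ | p.1 ≤ p.2} ∩ {p : ℝ × ℝ | p.2 ≤ 1} ∩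
          {p : ℝ × ℝ | g p.1 = g p.2} := by
        ext p; simp only [mem_ofPred_eq, mem_inter_iff]; tauto
      rw [e]
      exact (((isClosed_le continuous_const continuous_fst).inter
        (isClosed_le continuous_fst continuous_snd)).inter
        (isClosed_le continuous_snd continuous_const)).inter
        (isClosed_eq (hg.comp continuous_fst) (hg.comp continuous_snd))
    · rintro ⟨s, t⟩ ⟨⟨h1, h2, h3⟩, -⟩
      simp only at h1 h2 h3
      exact ⟨⟨h1, h2.trans h3⟩, ⟨h1.trans h2, h3⟩⟩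
  have e : Sp g = (fun p : ℝ × ℝ => p.2 - p.1) ''
      {p : ℝ × ℝ | (0 ≤ p.1 ∧ p.1 ≤ p.2 ∧ p.2 ≤ 1) ∧ g p.1 = g p.2} := by
    ext u
    constructor
    · rintro ⟨s, t, h1, h2, h3, h4, h5⟩
      exact ⟨(s, t), ⟨⟨h1, h2, h3⟩, h4⟩, h5.symm⟩
    · rintro ⟨⟨s, t⟩, ⟨⟨h1, h2, h3⟩, h4⟩, h5⟩
      exact ⟨s, t, h1, h2, h3, h4, h5.symm⟩
  rw [e]
  exact (hK.image (by fun_prop)).isClosed

/-- Two-parameter increment: for `u, x ∈ [0,1]`, the increment of `g` over
`[x (1 - u), x (1 - u) + u]`. -/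
def F (g : ℝ → ℝ) (u x : ℝ) : ℝ := g (x * (1 - u) + u) - g (x * (1 - u))

lemma continuous_F {g : ℝ → ℝ} (hg : Continuous g) : Continuous fun p : ℝ × ℝ => F g p.1 p.2 := by
  unfold F; fun_prop

lemma continuous_F_left {g : ℝ → ℝ} (hg : Continuous g) (x : ℝ) : Continuous fun u => F g u x := by
  unfold F; fun_prop

lemma mem_Sp_of_F_eq {g : ℝ → ℝ} {u x : ℝ} (hu : u ∈ Icc (0 : ℝ) 1) (hx : x ∈ Icc (0 : ℝ) 1)
    (h : F g u x = 0) : u ∈ Sp g := by
  refine ⟨x * (1 - u), x * (1 - u) + u, ?_, ?_, ?_, ?_, by ring⟩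
  · exact mul_nonneg hx.1 (by linarith [hu.2])
  · linarith [hu.1]
  · have : x * (1 - u) ≤ 1 * (1 - u) := mul_le_mul_of_nonneg_right hx.2 (by linarith [hu.2])
    linarith
  · unfold F at h; linarith

lemma mem_Sp_of_sign {g : ℝ → ℝ} (hg : Continuous g) {u x₁ x₂ : ℝ} (hu : u ∈ Icc (0 : ℝ) 1)
    (hx₁ : x₁ ∈ Icc (0 : ℝ) 1) (hx₂ : x₂ ∈ Icc (0 : ℝ) 1) (h₁ : F g u x₁ ≤ 0) (h₂ : 0 ≤ F g u x₂) :
    u ∈ Sp g := by
  have hc : ContinuousOn (fun x => F g u x) (Icc (0 : ℝ) 1) := by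
    unfold F; exact Continuous.continuousOn (by fun_prop)
  have := (isPreconnected_Icc (a := (0 : ℝ)) (b := 1)).intermediate_value hx₁ hx₂ hc
  obtain ⟨x, hx, hx0⟩ := this ⟨h₁, h₂⟩
  exact mem_Sp_of_F_eq hu hx hx0

lemma zero_mem_closure {g : ℝ → ℝ} (hg : Continuous g) {b : ℝ} (hb : b ∈ Ioo (0 : ℝ) 1)
    (hmax : IsLocalMax g b ∨ IsLocalMin g b) : (0 : ℝ) ∈ closure (interior (Sp g)) := by
  -- for small `u` the increment has opposite signs at `b - u` and `b`
  obtain ⟨ε, hε, hball⟩ : ∃ ε > 0, (∀ y, |y - b| < ε → g y ≤ g b) ∨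
      (∀ y, |y - b| < ε → g b ≤ g y) := by
    rcases hmax with h | h
    · obtain ⟨ε, hε, h'⟩ := Metric.eventually_nhds_iff.1 h
      exact ⟨ε, hε, Or.inl fun y hy => h' (by rwa [Real.dist_eq])⟩
    · obtain ⟨ε, hε, h'⟩ := Metric.eventually_nhds_iff.1 h
      exact ⟨ε, hε, Or.inr fun y hy => h' (by rwa [Real.dist_eq])⟩
  set η := min ε (min b (1 - b)) with hη
  have hηpos : 0 < η := by
    refine lt_min hε (lt_min hb.1 (by linarith [hb.2]))
  have hsub : Ioo (0 : ℝ) η ⊆ Sp g := by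
    intro u hu
    have hu1 : u < ε := hu.2.trans_le (min_le_left _ _)
    have hu2 : u < b := hu.2.trans_le ((min_le_right _ _).trans (min_le_left _ _))
    have hu3 : u < 1 - b := hu.2.trans_le ((min_le_right _ _).trans (min_le_right _ _))
    have hcont : ContinuousOn (fun s => g (s + u) - g s) (Icc (b - u) b) :=
      Continuous.continuousOn (by fun_prop)
    have hbu : b - u ≤ b := by linarith [hu.1]
    have hne1 : b - u ∈ Icc (b - u) b := ⟨le_rfl, hbu⟩
    have hne2 : b ∈ Icc (b - u) b := ⟨hbu, le_rfl⟩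
    have hd1 : |b - u - b| < ε := by
      rw [abs_lt]; constructor <;> linarith [hu.1]
    have hd2 : |b + u - b| < ε := by
      rw [abs_lt]; constructor <;> linarith [hu.1]
    have key : ∃ s ∈ Icc (b - u) b, g (s + u) - g s = 0 := by
      rcases hball with h | h
      · have := isPreconnected_Icc.intermediate_value hne2 hne1 hcont
        obtain ⟨s, hs, hs0⟩ := this (show (0 : ℝ) ∈ Icc _ _ from
          ⟨by have := h _ hd2; linarith, by
            have := h _ hd1; simp only [sub_add_cancel]; linarith⟩)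
        exact ⟨s, hs, hs0⟩
      · have := isPreconnected_Icc.intermediate_value hne1 hne2 hcont
        obtain ⟨s, hs, hs0⟩ := this (show (0 : ℝ) ∈ Icc _ _ from
          ⟨by have := h _ hd1; simp only [sub_add_cancel]; linarith, by
            have := h _ hd2; linarith⟩)
        exact ⟨s, hs, hs0⟩
    obtain ⟨s, hs, hs0⟩ := key
    exact ⟨s, s + u, by linarith [hs.1], by linarith [hu.1], by linarith [hs.2], by linarith,
      by ring⟩
  have hint : Ioo (0 : ℝ) η ⊆ interior (Sp g) := interior_maximal hsub isOpen_Ioo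
  refine closure_mono hint ?_
  rw [closure_Ioo hηpos.ne]
  exact ⟨le_rfl, hηpos.le⟩

lemma F_nonneg_iff {g : ℝ → ℝ} {v : ℝ} (hv : v ∈ Ioo (0 : ℝ) 1)
    (h : ∀ x ∈ Icc (0 : ℝ) 1, 0 ≤ F g v x) {s : ℝ} (hs : 0 ≤ s) (hs' : s + v ≤ 1) :
    g s ≤ g (s + v) := by
  have h1 : 0 < 1 - v := by linarith [hv.2]
  have h2 := h (s / (1 - v)) ⟨by positivity, by rw [div_le_one h1]; linarith⟩
  unfold F at h2
  rw [div_mul_cancel₀ _ h1.ne'] at h2
  linarith

/-- The one-sided version of the main argument. -/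
lemma local_extrema_of_nonneg {g : ℝ → ℝ} {u δ s t : ℝ} (hδ : 0 < δ)
    (hI : Ioo (u - δ) (u + δ) ⊆ Ioo (0 : ℝ) 1)
    (h : ∀ v ∈ Ioo (u - δ) (u + δ), ∀ x ∈ Icc (0 : ℝ) 1, 0 ≤ F g v x)
    (hs : 0 ≤ s) (ht : t ≤ 1) (hst : g s = g t) (hu : u = t - s) :
    IsLocalMaxOn g (Icc 0 1) s ∧ IsLocalMinOn g (Icc 0 1) t := by
  constructor
  · have hnear : ∀ᶠ y in 𝓝[Icc (0 : ℝ) 1] s, y ∈ Icc (0 : ℝ) 1 ∧ |y - s| < δ := by
      refine eventually_mem_nhdsWithin.and (mem_nhdsWithin_of_mem_nhds ?_)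
      exact Metric.ball_mem_nhds s hδ
    filter_upwards [hnear] with y ⟨hy, hyd⟩
    rw [abs_lt] at hyd
    have hv : t - y ∈ Ioo (u - δ) (u + δ) := ⟨by linarith, by linarith⟩
    have := F_nonneg_iff (hI hv) (h _ hv) hy.1 (by linarith)
    rw [show y + (t - y) = t by ring] at this
    rw [hst]; exact this
  · have hnear : ∀ᶠ y in 𝓝[Icc (0 : ℝ) 1] t, y ∈ Icc (0 : ℝ) 1 ∧ |y - t| < δ := by
      refine eventually_mem_nhdsWithin.and (mem_nhdsWithin_of_mem_nhds ?_)
      exact Metric.ball_mem_nhds t hδ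
    filter_upwards [hnear] with y ⟨hy, hyd⟩
    rw [abs_lt] at hyd
    have hv : y - s ∈ Ioo (u - δ) (u + δ) := ⟨by linarith, by linarith⟩
    have := F_nonneg_iff (hI hv) (h _ hv) hs (by linarith [hy.2])
    rw [show s + (y - s) = y by ring] at this
    rw [← hst]; exact this

/-- The generic conditions on a path that make its span set regular. -/
structure Generic (g : ℝ → ℝ) : Prop where
  cont : Continuous g
  ends : g 0 ≠ g 1
  max_min : ∀ s t : ℝ, 0 ≤ s → s < t → t ≤ 1 → IsLocalMaxOn g (Icc 0 1) s →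
    IsLocalMinOn g (Icc 0 1) t → g s ≠ g t
  min_max : ∀ s t : ℝ, 0 ≤ s → s < t → t ≤ 1 → IsLocalMinOn g (Icc 0 1) s →
    IsLocalMaxOn g (Icc 0 1) t → g s ≠ g t
  max_max : ∀ s t : ℝ, 0 ≤ s → s < t → t ≤ 1 → IsLocalMaxOn g (Icc 0 1) s →
    IsLocalMaxOn g (Icc 0 1) t → g s ≠ g t
  min_min : ∀ s t : ℝ, 0 ≤ s → s < t → t ≤ 1 → IsLocalMinOn g (Icc 0 1) s →
    IsLocalMinOn g (Icc 0 1) t → g s ≠ g t
  extr : ∀ q : ℝ, 0 < q → q ≤ 1 → ∃ b ∈ Ioo (0 : ℝ) q, IsLocalMax g b ∨ IsLocalMin g b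

lemma F_neg (g : ℝ → ℝ) (u x : ℝ) : F (-g) u x = - F g u x := by
  simp [F]; ring

theorem Generic.not_periodic {g : ℝ → ℝ} (hg : Generic g) {v : ℝ} (hv : v ∈ Ioo (0 : ℝ) 1)
    (h1 : ∀ x ∈ Icc (0 : ℝ) 1, 0 ≤ F g v x) (h2 : ∀ x ∈ Icc (0 : ℝ) 1, F g v x ≤ 0) : False := by
  have hper : ∀ s : ℝ, 0 ≤ s → s + v ≤ 1 → g (s + v) = g s := by
    intro s hs hs'
    refine le_antisymm ?_ (F_nonneg_iff hv h1 hs hs')
    have h3 : ∀ x ∈ Icc (0 : ℝ) 1, 0 ≤ F (-g) v x := by
      intro x hx; rw [F_neg]; linarith [h2 x hx]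
    have := F_nonneg_iff hv h3 hs hs'
    simp only [Pi.neg_apply] at this
    linarith
  obtain ⟨b, hb, hloc⟩ := hg.extr (1 - v) (by linarith [hv.2]) (by linarith [hv.1])
  have hgb : g b = g (b + v) := (hper b hb.1.le (by linarith [hb.2])).symm
  -- near `b + v`, `g y = g (y - v)`
  have hnear : ∀ᶠ y in 𝓝 (b + v), g y = g (y - v) := by
    have : ∀ᶠ y in 𝓝 (b + v), y ∈ Ioo v 1 :=
      isOpen_Ioo.mem_nhds ⟨by linarith [hb.1], by linarith [hb.2]⟩
    filter_upwards [this] with y hy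
    have := hper (y - v) (by linarith [hy.1]) (by linarith [hy.2])
    rw [sub_add_cancel] at this
    exact this
  have htend : Tendsto (fun y => y - v) (𝓝 (b + v)) (𝓝 b) := by
    have : Tendsto (fun y => y - v) (𝓝 (b + v)) (𝓝 (b + v - v)) :=
      (continuous_id.sub continuous_const).tendsto _
    simpa using this
  rcases hloc with hloc | hloc
  · have h3 : IsLocalMax g (b + v) := by
      filter_upwards [hnear, htend.eventually hloc] with y hy1 hy2
      rw [hy1, ← hgb]; exact hy2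
    exact hg.max_max b (b + v) hb.1.le (by linarith [hv.1]) (by linarith [hb.2])
      (hloc.on _) (h3.on _) hgb
  · have h3 : IsLocalMin g (b + v) := by
      filter_upwards [hnear, htend.eventually hloc] with y hy1 hy2
      rw [hy1, ← hgb]; exact hy2
    exact hg.min_min b (b + v) hb.1.le (by linarith [hv.1]) (by linarith [hb.2])
      (hloc.on _) (h3.on _) hgb

theorem Generic.regular {g : ℝ → ℝ} (hg : Generic g) : closure (interior (Sp g)) = Sp g := by
  have hcl := isClosed_Sp hg.cont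
  refine Subset.antisymm ((closure_mono interior_subset).trans hcl.closure_eq.subset) ?_
  rintro u ⟨s, t, hs, hst, ht, hgst, hu⟩
  rcases eq_or_lt_of_le hst with rfl | hlt
  · -- u = 0
    obtain ⟨b, hb, hloc⟩ := hg.extr 1 one_pos le_rfl
    rw [hu, sub_self]
    exact zero_mem_closure hg.cont hb hloc
  by_cases hu1 : u = 1
  · exfalso
    have hs0 : s = 0 := by linarith
    have ht1 : t = 1 := by linarith
    rw [hs0, ht1] at hgst
    exact hg.ends hgst
  have hu01 : u ∈ Ioo (0 : ℝ) 1 :=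
    ⟨by linarith, lt_of_le_of_ne (by linarith) hu1⟩
  by_contra hnot
  -- an interval around `u` that misses the interior of `Sp g`
  have hopen : (closure (interior (Sp g)))ᶜ ∩ Ioo (0 : ℝ) 1 ∈ 𝓝 u :=
    inter_mem (isClosed_closure.isOpen_compl.mem_nhds hnot) (isOpen_Ioo.mem_nhds hu01)
  obtain ⟨δ, hδ, hball⟩ := Metric.mem_nhds_iff.1 hopen
  rw [Real.ball_eq_Ioo] at hball
  have hI : Ioo (u - δ) (u + δ) ⊆ Ioo (0 : ℝ) 1 := fun v hv => (hball hv).2
  have hnint : ∀ v ∈ Ioo (u - δ) (u + δ), v ∉ interior (Sp g) := fun v hv hv' =>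
    (hball hv).1 (subset_closure hv')
  set A := {v : ℝ | ∀ x ∈ Icc (0 : ℝ) 1, 0 ≤ F g v x} with hA
  set N := {v : ℝ | ∀ x ∈ Icc (0 : ℝ) 1, F g v x ≤ 0} with hN
  have hAc : IsClosed A := by
    have : A = ⋂ x ∈ Icc (0 : ℝ) 1, {v | 0 ≤ F g v x} := by ext v; simp [hA]
    rw [this]
    exact isClosed_biInter fun x _ => isClosed_le continuous_const (continuous_F_left hg.cont x)
  have hNc : IsClosed N := by
    have : N = ⋂ x ∈ Icc (0 : ℝ) 1, {v | F g v x ≤ 0} := by ext v; simp [hN]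
    rw [this]
    exact isClosed_biInter fun x _ => isClosed_le (continuous_F_left hg.cont x) continuous_const
  have hcov : Ioo (u - δ) (u + δ) ⊆ A ∪ N := by
    intro v hv
    by_contra hvn
    simp only [mem_union, not_or, hA, hN, mem_ofPred_eq, not_forall, not_le] at hvn
    obtain ⟨⟨x₁, hx₁, h₁⟩, ⟨x₂, hx₂, h₂⟩⟩ := hvn
    apply hnint v hv
    rw [mem_interior_iff_mem_nhds]
    have e1 : ∀ᶠ w in 𝓝 v, F g w x₁ < 0 :=
      (continuous_F_left hg.cont x₁).continuousAt.eventually_lt continuousAt_const h₁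
    have e2 : ∀ᶠ w in 𝓝 v, 0 < F g w x₂ :=
      continuousAt_const.eventually_lt (continuous_F_left hg.cont x₂).continuousAt h₂
    have e3 : ∀ᶠ w in 𝓝 v, w ∈ Ioo (0 : ℝ) 1 := isOpen_Ioo.mem_nhds (hI hv)
    filter_upwards [e1, e2, e3] with w hw1 hw2 hw3
    exact mem_Sp_of_sign hg.cont (Ioo_subset_Icc_self hw3) hx₁ hx₂ hw1.le hw2.le
  have hconn : IsPreconnected (Ioo (u - δ) (u + δ)) := isPreconnected_Ioo
  have hmemu : u ∈ Ioo (u - δ) (u + δ) := ⟨by linarith, by linarith⟩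
  by_cases hAne : (Ioo (u - δ) (u + δ) ∩ A).Nonempty
  · by_cases hNne : (Ioo (u - δ) (u + δ) ∩ N).Nonempty
    · obtain ⟨v, hv, hvA, hvN⟩ := isPreconnected_closed_iff.1 hconn A N hAc hNc hcov hAne hNne
      exact hg.not_periodic (hI hv) hvA hvN
    · have hsub : ∀ v ∈ Ioo (u - δ) (u + δ), ∀ x ∈ Icc (0 : ℝ) 1, 0 ≤ F g v x := by
        intro v hv
        rcases hcov hv with h | h
        · exact h
        · exact absurd ⟨v, hv, h⟩ hNne
      obtain ⟨hmax, hmin⟩ := local_extrema_of_nonneg hδ hI hsub hs ht hgst hu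
      exact hg.max_min s t hs hlt ht hmax hmin hgst
  · have hsub : ∀ v ∈ Ioo (u - δ) (u + δ), ∀ x ∈ Icc (0 : ℝ) 1, 0 ≤ F (-g) v x := by
      intro v hv x hx
      rcases hcov hv with h | h
      · exact absurd ⟨v, hv, h⟩ hAne
      · rw [F_neg]; linarith [h x hx]
    obtain ⟨hmax, hmin⟩ := local_extrema_of_nonneg (g := -g) hδ hI hsub hs ht
      (by simp [hgst]) hu
    have hmax' : IsLocalMinOn g (Icc 0 1) s := by
      have := hmax.neg; simpa using this
    have hmin' : IsLocalMaxOn g (Icc 0 1) t := by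
      have := hmin.neg; simpa using this
    exact hg.min_max s t hs hlt ht hmax' hmin' hgst

/-! ### Dense sequences in compact intervals and suprema of continuous paths -/

/-- A dense sequence of the interval `[a, b]` (clamp of a dense sequence of `ℝ≥0`). -/
noncomputable def D (a b : ℝ≥0) (n : ℕ) : ℝ≥0 := max a (min b (TopologicalSpace.denseSeq ℝ≥0 n))

lemma D_mem {a b : ℝ≥0} (h : a ≤ b) (n : ℕ) : D a b n ∈ Icc a b :=
  ⟨le_max_left _ _, max_le h (min_le_left _ _)⟩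

lemma bddAbove_D {f : ℝ≥0 → ℝ} (hf : Continuous f) {a b : ℝ≥0} (h : a ≤ b) :
    BddAbove (range fun n => f (D a b n)) := by
  have h1 : BddAbove (f '' Icc a b) := (isCompact_Icc.image hf).bddAbove
  refine h1.mono ?_
  rintro _ ⟨n, rfl⟩
  exact mem_image_of_mem _ (D_mem h n)

lemma iSup_D_eq {f : ℝ≥0 → ℝ} (hf : Continuous f) {a b t : ℝ≥0} (ht : t ∈ Icc a b)
    (hmax : ∀ y ∈ Icc a b, f y ≤ f t) : ⨆ n, f (D a b n) = f t := by
  have hab : a ≤ b := ht.1.trans ht.2
  refine le_antisymm (ciSup_le fun n => hmax _ (D_mem hab n)) ?_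
  have hcl : ∀ y : ℝ≥0, f (max a (min b y)) ≤ ⨆ n, f (D a b n) := by
    intro y
    refine DenseRange.induction_on (TopologicalSpace.denseRange_denseSeq ℝ≥0) y ?_ ?_
    · exact isClosed_le (by fun_prop) continuous_const
    · intro n
      exact le_ciSup (bddAbove_D hf hab) n
  have := hcl t
  rwa [min_eq_right ht.2, max_eq_right ht.1] at this

/-! ### Probabilistic part -/

variable {Ω : Type*} {mΩ : MeasurableSpace Ω} {P : Measure Ω}

lemma prob_eq_zero_of_indep [IsProbabilityMeasure P] {X Y : Ω → ℝ} (hX : AEMeasurable X P)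
    (hY : AEMeasurable Y P) (h : IndepFun X Y P) (h0 : ∀ x, P {ω | X ω = x} = 0) :
    P {ω | X ω = Y ω} = 0 := by
  have hmap := (indepFun_iff_map_prod_eq_prod_map_map hX hY).1 h
  have hD : MeasurableSet {p : ℝ × ℝ | p.1 = p.2} :=
    (isClosed_eq continuous_fst continuous_snd).measurableSet
  have h1 : P {ω | X ω = Y ω} = P.map (fun ω => (X ω, Y ω)) {p : ℝ × ℝ | p.1 = p.2} := by
    rw [Measure.map_apply_of_aemeasurable (hX.prodMk hY) hD]
    rfl
  have : IsProbabilityMeasure (P.map X) := Measure.isProbabilityMeasure_map hX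
  have : IsProbabilityMeasure (P.map Y) := Measure.isProbabilityMeasure_map hY
  rw [h1, hmap, Measure.prod_apply_symm hD]
  rw [lintegral_eq_zero_iff' ?_]
  · refine Eventually.of_forall fun y => ?_
    have e : (fun x => (x, y)) ⁻¹' {p : ℝ × ℝ | p.1 = p.2} = {y} := by ext x; simp
    show (P.map X) _ = 0
    rw [e, Measure.map_apply_of_aemeasurable hX (measurableSet_singleton y)]
    exact h0 y
  · exact (measurable_measure_prodMk_right hD).aemeasurable

lemma isProbabilityMeasure_of_brownian {B : ℝ≥0 → Ω → ℝ} (hB : IsBrownianReal B P) :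
    IsProbabilityMeasure P := hB.isGaussianProcess.isProbabilityMeasure

lemma noatom_eval {B : ℝ≥0 → Ω → ℝ} (hB : IsBrownianReal B P) {s t : ℝ≥0} (hst : s ≠ t) (x : ℝ) :
    P {ω | B t ω - B s ω = x} = 0 := by
  have hl := hB.hasLaw_sub t s
  have hv : nndist (t : ℝ) (s : ℝ) ≠ 0 := by
    rw [Ne, nndist_eq_zero]
    exact fun h => hst (NNReal.coe_injective h.symm)
  have := nullSingletonClass_gaussianReal (μ := 0) hv
  have h1 : P {ω | B t ω - B s ω = x} = (P.map (B t - B s)) {x} := by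
    rw [Measure.map_apply_of_aemeasurable hl.aemeasurable (measurableSet_singleton x)]
    rfl
  rw [h1, hl.map_eq]
  exact this.measure_singleton x

/-- The supremum of Brownian motion over an interval bounded away from `0` has no atoms. -/
lemma noatom_sup {B : ℝ≥0 → Ω → ℝ} (hB : IsBrownianReal B P) {c d : ℝ≥0} (hc : 0 < c)
    (hcd : c ≤ d) (x : ℝ) : P {ω | ⨆ n, B (D c d n) ω = x} = 0 := by
  have := isProbabilityMeasure_of_brownian hB
  have hind := hB.indepFun_shift c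
  have hφ : Measurable fun w : ℝ≥0 → ℝ => x - ⨆ n, w (D c d n - c) :=
    measurable_const.sub (Measurable.iSup fun n => measurable_pi_apply _)
  have hψ : Measurable fun v : Set.Iic c → ℝ => v ⟨c, Set.mem_Iic.2 le_rfl⟩ := measurable_pi_apply _
  have hcomp := (hind.comp hφ hψ).symm
  have h0 : ∀ y, P {ω | B c ω = y} = 0 := by
    intro y
    have hz := hB.eval_zero_ae_eq_zero
    have := noatom_eval hB (s := 0) (t := c) hc.ne y
    refine measure_mono_null_ae ?_ this
    filter_upwards [hz] with ω hω h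
    show B c ω - B 0 ω = y
    rw [hω, sub_zero]; exact h
  have hY : AEMeasurable (fun ω => x - ⨆ n, (B (c + (D c d n - c)) ω - B c ω)) P :=
    aemeasurable_const.sub (AEMeasurable.iSup fun n => (hB.aemeasurable _).sub (hB.aemeasurable _))
  have hmain := prob_eq_zero_of_indep (hB.aemeasurable c) hY hcomp h0
  refine measure_mono_null_ae ?_ hmain
  filter_upwards [hB.cont] with ω hω h
  show B c ω = x - ⨆ n, (B (c + (D c d n - c)) ω - B c ω)
  have e1 : ∀ n, c + (D c d n - c) = D c d n := fun n => add_tsub_cancel_of_le (D_mem hcd n).1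
  simp_rw [e1]
  have e2 : ⨆ n, (B (D c d n) ω - B c ω) = (⨆ n, B (D c d n) ω) - B c ω := by
    have hb := bddAbove_D hω hcd
    have hb' : BddAbove (range fun n => B (D c d n) ω - B c ω) := by
      obtain ⟨M, hM⟩ := hb
      refine ⟨M - B c ω, ?_⟩
      rintro _ ⟨n, rfl⟩
      have := hM ⟨n, rfl⟩
      simp only at this ⊢
      linarith
    refine le_antisymm (ciSup_le fun n => ?_) ?_
    · have := le_ciSup hb n
      linarith
    · rw [sub_le_iff_le_add]
      refine ciSup_le fun n => ?_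
      have := le_ciSup hb' n
      linarith
  have h' : ⨆ n, B (D c d n) ω = x := h
  rw [e2, h']; ring

/-- Suprema over two disjoint intervals (after a possible sign change on the second one) are
almost surely different. -/
lemma sup_ne_sup {B : ℝ≥0 → Ω → ℝ} (hB : IsBrownianReal B P) {σ : ℝ} (hσ : σ * σ = 1)
    (hBσ : IsBrownianReal (fun t ω => σ * B t ω) P) {a b c d : ℝ≥0} (hab : a ≤ b) (hbc : b < c)
    (hcd : c ≤ d) :
    P {ω | ⨆ n, B (D a b n) ω = σ * ⨆ n, σ * B (D c d n) ω} = 0 := by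
  have := isProbabilityMeasure_of_brownian hB
  have hind := hBσ.indepFun_shift b
  -- `X`: supremum for the shifted process
  have hφ : Measurable fun w : ℝ≥0 → ℝ => ⨆ n, w (D (c - b) (d - b) n) :=
    Measurable.iSup fun n => measurable_pi_apply _
  have hψ : Measurable fun v : Set.Iic b → ℝ =>
      σ * (⨆ n, σ * v ⟨D a b n, Set.mem_Iic.2 (D_mem hab n).2⟩) - v ⟨b, Set.mem_Iic.2 le_rfl⟩ := by
    have h0 : ∀ n, Measurable fun v : Set.Iic b → ℝ =>
        v ⟨D a b n, Set.mem_Iic.2 (D_mem hab n).2⟩ := fun n => measurable_pi_apply _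
    have h1 : Measurable fun v : Set.Iic b → ℝ =>
        ⨆ n, σ * v ⟨D a b n, Set.mem_Iic.2 (D_mem hab n).2⟩ :=
      Measurable.iSup fun n => (h0 n).const_mul σ
    have h2 : Measurable fun v : Set.Iic b → ℝ => v ⟨b, Set.mem_Iic.2 le_rfl⟩ :=
      measurable_pi_apply _
    exact (h1.const_mul σ).sub h2
  have hcomp := hind.comp hφ hψ
  have hcb : 0 < c - b := tsub_pos_of_lt hbc
  have hcdb : c - b ≤ d - b := tsub_le_tsub_right hcd b
  have h0 : ∀ x, P {ω | ⨆ n, (σ * B (b + D (c - b) (d - b) n) ω - σ * B b ω) = x} = 0 := fun x =>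
    noatom_sup (hBσ.shift b) hcb hcdb x
  have hX : AEMeasurable (fun ω => ⨆ n, (σ * B (b + D (c - b) (d - b) n) ω - σ * B b ω)) P :=
    AEMeasurable.iSup fun n => ((hB.aemeasurable _).const_mul σ).sub ((hB.aemeasurable _).const_mul σ)
  have hY : AEMeasurable (fun ω => σ * (⨆ n, σ * (σ * B (D a b n) ω)) - σ * B b ω) P :=
    ((AEMeasurable.iSup fun n => ((hB.aemeasurable _).const_mul σ).const_mul σ).const_mul σ).sub
      ((hB.aemeasurable _).const_mul σ)
  have hmain := prob_eq_zero_of_indep hX hY hcomp h0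
  refine measure_mono_null_ae ?_ hmain
  filter_upwards [hBσ.cont, hB.cont] with ω hω hω' h
  have h' : ⨆ n, B (D a b n) ω = σ * ⨆ n, σ * B (D c d n) ω := h
  show ⨆ n, (σ * B (b + D (c - b) (d - b) n) ω - σ * B b ω) =
    σ * (⨆ n, σ * (σ * B (D a b n) ω)) - σ * B b ω
  have e1 : ∀ n, σ * (σ * B (D a b n) ω) = B (D a b n) ω := fun n => by
    rw [← mul_assoc, hσ, one_mul]
  simp_rw [e1]
  rw [h', ← mul_assoc, hσ, one_mul]
  -- both sides are the maximum of `σ B - σ B b` over `[c, d]`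
  set f : ℝ≥0 → ℝ := fun t => σ * B t ω with hf
  obtain ⟨t, ht, htmax⟩ := isCompact_Icc.exists_isMaxOn (nonempty_Icc.2 hcd) hω.continuousOn
  have hmax1 : ⨆ n, σ * B (D c d n) ω = f t :=
    iSup_D_eq (f := f) hω ht fun y hy => htmax hy
  have hbt : b ≤ t := hbc.le.trans ht.1
  have hmax2 : ⨆ n, (σ * B (b + D (c - b) (d - b) n) ω - σ * B b ω) = f t - f b := by
    have := iSup_D_eq (f := fun s => f (b + s) - f b) (a := c - b) (b := d - b) (t := t - b)
      (by fun_prop) ⟨tsub_le_tsub_right ht.1 b, tsub_le_tsub_right ht.2 b⟩ (by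
        intro y hy
        show f (b + y) - f b ≤ f (b + (t - b)) - f b
        rw [add_tsub_cancel_of_le hbt]
        have h1 : b + y ∈ Icc c d := by
          constructor
          · have := hy.1
            rwa [tsub_le_iff_left] at this
          · have := add_le_add_right hy.2 b
            rw [add_tsub_cancel_of_le (hbc.le.trans hcd)] at this
            exact this
        have := htmax h1
        simp only [mem_ofPred_eq] at this
        linarith)
    rw [add_tsub_cancel_of_le hbt] at this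
    exact this
  rw [hmax1, hmax2]

/-! ### Brownian motion is not monotone on any interval `[0, q]` -/

lemma gaussian_Ici {v : ℝ≥0} (hv : v ≠ 0) : gaussianReal 0 v (Ici 0) = 2⁻¹ := by
  have hn := nullSingletonClass_gaussianReal (μ := 0) hv
  have h1 : gaussianReal 0 v (Iic 0) = gaussianReal 0 v (Ici 0) := by
    have h := gaussianReal_map_neg (μ := 0) (v := v)
    rw [neg_zero] at h
    conv_rhs => rw [← h]
    rw [Measure.map_apply measurable_neg measurableSet_Ici]
    congr 1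
    ext x; simp
  have h2 : gaussianReal 0 v (Ici 0) = gaussianReal 0 v (Ioi 0) := by
    rw [← Ioi_union_left]
    refine le_antisymm ((measure_union_le _ _).trans ?_) (measure_mono subset_union_left)
    rw [hn.measure_singleton, add_zero]
  have h3 : gaussianReal 0 v (Iic 0) + gaussianReal 0 v (Ioi 0) = 1 := by
    have := prob_add_prob_compl (μ := gaussianReal 0 v) (measurableSet_Iic (a := (0 : ℝ)))
    rwa [compl_Iic] at this
  rw [h1, ← h2, ← two_mul] at h3
  exact (ENNReal.eq_inv_of_mul_eq_one_left (by rwa [mul_comm]))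

lemma prob_incr_nonneg {B : ℝ≥0 → Ω → ℝ} (hB : IsBrownianReal B P) {s t : ℝ≥0} (hst : s ≠ t) :
    P ((fun ω => B t ω - B s ω) ⁻¹' Ici 0) = 2⁻¹ := by
  have hl := hB.hasLaw_sub t s
  have hv : nndist (t : ℝ) (s : ℝ) ≠ 0 := by
    rw [Ne, nndist_eq_zero]
    exact fun h => hst (NNReal.coe_injective h.symm)
  have h1 : P ((fun ω => B t ω - B s ω) ⁻¹' Ici 0) = (P.map (B t - B s)) (Ici 0) := by
    rw [Measure.map_apply_of_aemeasurable hl.aemeasurable measurableSet_Ici]
    rfl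
  rw [h1, hl.map_eq]
  exact gaussian_Ici hv

lemma not_monotone_ae {B : ℝ≥0 → Ω → ℝ} (hB : IsBrownianReal B P) {q : ℝ≥0} (hq : 0 < q) :
    ∀ᵐ ω ∂P, ¬ MonotoneOn (fun t => B t ω) (Icc 0 q) := by
  rw [ae_iff]
  simp only [not_not]
  have hbound : ∀ n : ℕ, P {ω | MonotoneOn (fun t => B t ω) (Icc 0 q)} ≤ (2⁻¹ : ℝ≥0∞) ^ n := by
    intro n
    rcases Nat.eq_zero_or_pos n with rfl | hn
    · have := isProbabilityMeasure_of_brownian hB
      simpa using prob_le_one
    set t : ℕ → ℝ≥0 := fun k => q * k / n with ht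
    have hn0 : (0 : ℝ≥0) < n := by exact_mod_cast hn
    have htlt : ∀ k, t k < t (k + 1) := by
      intro k
      simp only [ht]
      apply div_lt_div_of_pos_right _ hn0
      apply mul_lt_mul_of_pos_left _ hq
      push_cast
      exact lt_add_one _
    have htm : Monotone t := monotone_nat_of_le_succ fun k => (htlt k).le
    have hind := hB.hasIndepIncrements.nat htm
    have hinter := hind.measure_inter_preimage_eq_mul (Finset.range n) (sets := fun _ => Ici 0)
      (fun _ _ => measurableSet_Ici)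
    have hprod : ∏ i ∈ Finset.range n, P ((fun ω => B (t (i + 1)) ω - B (t i) ω) ⁻¹' Ici 0) =
        (2⁻¹ : ℝ≥0∞) ^ n := by
      rw [Finset.prod_congr rfl fun i _ => prob_incr_nonneg hB (htlt i).ne, Finset.prod_const,
        Finset.card_range]
    rw [← hprod, ← hinter]
    apply measure_mono
    intro ω hω
    simp only [mem_iInter, Finset.mem_range]
    intro i hi
    have h1 : t (i + 1) ≤ q := by
      simp only [ht]
      rw [div_le_iff₀ hn0]
      apply mul_le_mul_right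
      exact_mod_cast hi
    have := hω (show t i ∈ Icc 0 q from ⟨zero_le, (htlt i).le.trans h1⟩)
      (show t (i + 1) ∈ Icc 0 q from ⟨zero_le, h1⟩) (htlt i).le
    show 0 ≤ B (t (i + 1)) ω - B (t i) ω
    simp only at this
    linarith
  refine le_antisymm ?_ zero_le
  have hlim : Tendsto (fun n : ℕ => (2⁻¹ : ℝ≥0∞) ^ n) atTop (𝓝 0) :=
    ENNReal.tendsto_pow_atTop_nhds_zero_of_lt_one (by simp)
  exact ge_of_tendsto' hlim hbound

/-! ### Assembling -/

/-- Rational times. -/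
noncomputable def rt (q : ℚ) : ℝ≥0 := Real.toNNReal q

/-- The countably many almost sure properties used below. -/
structure Good (f : ℝ≥0 → ℝ) : Prop where
  cont : Continuous f
  ends : f 0 ≠ f 1
  ne_same : ∀ a b c d : ℚ, rt a ≤ rt b → rt b < rt c → rt c ≤ rt d →
    ⨆ n, f (D (rt a) (rt b) n) ≠ ⨆ n, f (D (rt c) (rt d) n)
  ne_opp : ∀ a b c d : ℚ, rt a ≤ rt b → rt b < rt c → rt c ≤ rt d →
    ⨆ n, f (D (rt a) (rt b) n) ≠ - ⨆ n, - f (D (rt c) (rt d) n)
  not_mono : ∀ q : ℚ, 0 < rt q → ¬ MonotoneOn f (Icc 0 (rt q))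

lemma good_ae {B : ℝ≥0 → Ω → ℝ} (hB : IsBrownianReal B P) : ∀ᵐ ω ∂P, Good (fun t => B t ω) := by
  have hB1 : IsBrownianReal (fun t ω => (1 : ℝ) * B t ω) P := by
    simpa using hB
  have hB2 : IsBrownianReal (fun t ω => (-1 : ℝ) * B t ω) P := by
    have := hB.neg
    have e : (fun t ω => (-1 : ℝ) * B t ω) = -B := by
      ext t ω; simp
    rwa [e]
  have h1 : ∀ᵐ ω ∂P, ∀ a b c d : ℚ, rt a ≤ rt b → rt b < rt c → rt c ≤ rt d →
      ⨆ n, B (D (rt a) (rt b) n) ω ≠ ⨆ n, B (D (rt c) (rt d) n) ω := by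
    simp only [ae_all_iff]
    intro a b c d hab hbc hcd
    have := sup_ne_sup hB (σ := 1) (by norm_num) hB1 hab hbc hcd
    rw [ae_iff]
    simpa using this
  have h2 : ∀ᵐ ω ∂P, ∀ a b c d : ℚ, rt a ≤ rt b → rt b < rt c → rt c ≤ rt d →
      ⨆ n, B (D (rt a) (rt b) n) ω ≠ - ⨆ n, - B (D (rt c) (rt d) n) ω := by
    simp only [ae_all_iff]
    intro a b c d hab hbc hcd
    have := sup_ne_sup hB (σ := -1) (by norm_num) hB2 hab hbc hcd
    rw [ae_iff]
    simpa using this
  have h3 : ∀ᵐ ω ∂P, ∀ q : ℚ, 0 < rt q → ¬ MonotoneOn (fun t => B t ω) (Icc 0 (rt q)) := by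
    rw [ae_all_iff]
    intro q
    rw [ae_all_iff]
    intro hq
    exact not_monotone_ae hB hq
  have h4 : ∀ᵐ ω ∂P, B 0 ω ≠ B 1 ω := by
    have := noatom_eval hB (s := 0) (t := 1) zero_ne_one 0
    rw [ae_iff]
    refine measure_mono_null ?_ this
    intro ω hω
    have h : ¬ (B 0 ω ≠ B 1 ω) := hω
    rw [not_not] at h
    show B 1 ω - B 0 ω = 0
    rw [h, sub_self]
  filter_upwards [h1, h2, h3, h4, hB.cont] with ω g1 g2 g3 g4 g5
  exact ⟨g5, g4, g1, g2, g3⟩

lemma coe_rt {q : ℚ} (hq : 0 ≤ q) : ((rt q : ℝ≥0) : ℝ) = q := by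
  unfold rt
  rw [Real.coe_toNNReal]
  exact_mod_cast hq

/-- Rational localisation around a point of `[0, 1]`. -/
lemma exists_rat_interval {s ε l r : ℝ} (hs0 : 0 ≤ s) (hs1 : s ≤ 1) (hε : 0 < ε) (hl : l < s ∨ l < 0)
    (hr : s < r ∨ 1 < r) : ∃ a b : ℚ, 0 ≤ a ∧ (a : ℝ) ≤ s ∧ s ≤ b ∧ (b : ℝ) ≤ 1 ∧ s - ε < a ∧
      (b : ℝ) < s + ε ∧ l < a ∧ (b : ℝ) < r := by
  have ha : ∃ a : ℚ, 0 ≤ a ∧ (a : ℝ) ≤ s ∧ s - ε < a ∧ l < a := by
    rcases hs0.eq_or_lt with h | h
    · refine ⟨0, le_rfl, by simp [hs0], by simp [← h, hε], ?_⟩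
      rcases hl with hl | hl
      · simpa [← h] using hl
      · simpa using hl
    · have hls : l < s := by
        rcases hl with hl | hl
        · exact hl
        · linarith
      obtain ⟨a, ha1, ha2⟩ := exists_rat_btwn (show max 0 (max (s - ε) l) < s from
        max_lt h (max_lt (by linarith) hls))
      refine ⟨a, ?_, ha2.le, lt_of_le_of_lt ((le_max_left _ _).trans (le_max_right _ _)) ha1,
        lt_of_le_of_lt ((le_max_right _ _).trans (le_max_right _ _)) ha1⟩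
      have : (0 : ℝ) < a := lt_of_le_of_lt (le_max_left _ _) ha1
      exact_mod_cast this.le
  have hb : ∃ b : ℚ, s ≤ b ∧ (b : ℝ) ≤ 1 ∧ (b : ℝ) < s + ε ∧ (b : ℝ) < r := by
    rcases hs1.eq_or_lt with h | h
    · refine ⟨1, by simp [h], by simp, by simp [h, hε], ?_⟩
      rcases hr with hr | hr
      · simpa [h] using hr
      · simpa using hr
    · have hrs : s < r := by
        rcases hr with hr | hr
        · exact hr
        · linarith
      obtain ⟨b, hb1, hb2⟩ := exists_rat_btwn (show s < min 1 (min (s + ε) r) from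
        lt_min h (lt_min (by linarith) hrs))
      exact ⟨b, hb1.le, hb2.le.trans (min_le_left _ _),
        hb2.trans_le ((min_le_right _ _).trans (min_le_left _ _)),
        hb2.trans_le ((min_le_right _ _).trans (min_le_right _ _))⟩
  obtain ⟨a, ha1, ha2, ha3, ha4⟩ := ha
  obtain ⟨b, hb1, hb2, hb3, hb4⟩ := hb
  exact ⟨a, b, ha1, ha2, hb1, hb2, ha3, hb3, ha4, hb4⟩

/-- The value at a local maximum on `[0,1]` is the supremum over a small rational interval, which
may be chosen to lie in `(l, r)`. -/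
lemma sup_eq_of_localMax {f : ℝ≥0 → ℝ} (hf : Continuous f) {s l r : ℝ} (hs0 : 0 ≤ s) (hs1 : s ≤ 1)
    (hl : l < s ∨ l < 0) (hr : s < r ∨ 1 < r)
    (hmax : IsLocalMaxOn (fun x : ℝ => f x.toNNReal) (Icc 0 1) s) :
    ∃ a b : ℚ, rt a ≤ rt b ∧ l < rt a ∧ (rt b : ℝ) < r ∧
      ⨆ n, f (D (rt a) (rt b) n) = f s.toNNReal := by
  obtain ⟨ε, hε, hball⟩ := Metric.mem_nhdsWithin_iff.1 hmax
  obtain ⟨a, b, h1, h2, h3, h4, h5, h6, h7, h8⟩ := exists_rat_interval hs0 hs1 hε hl hr
  have hb0 : (0 : ℚ) ≤ b := by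
    have : (0 : ℝ) ≤ b := hs0.trans h3
    exact_mod_cast this
  have ra : ((rt a : ℝ≥0) : ℝ) = a := coe_rt h1
  have rb : ((rt b : ℝ≥0) : ℝ) = b := coe_rt hb0
  have hsn : ((s.toNNReal : ℝ≥0) : ℝ) = s := Real.coe_toNNReal _ hs0
  refine ⟨a, b, ?_, by rw [ra]; exact h7, by rw [rb]; exact h8, ?_⟩
  · rw [← NNReal.coe_le_coe, ra, rb]; exact h2.trans h3
  · apply iSup_D_eq hf
    · constructor
      · rw [← NNReal.coe_le_coe, ra, hsn]; exact h2
      · rw [← NNReal.coe_le_coe, rb, hsn]; exact h3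
    · intro y hy
      have hy1 : (a : ℝ) ≤ y := by
        have := hy.1; rwa [← NNReal.coe_le_coe, ra] at this
      have hy2 : (y : ℝ) ≤ b := by
        have := hy.2; rwa [← NNReal.coe_le_coe, rb] at this
      have hmem : (y : ℝ) ∈ Metric.ball s ε ∩ Icc 0 1 := by
        refine ⟨?_, y.2, hy2.trans h4⟩
        rw [Metric.mem_ball, Real.dist_eq, abs_lt]
        constructor <;> linarith
      have := hball hmem
      simp only [mem_ofPred_eq, Real.toNNReal_coe] at this
      exact this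

lemma good_neg_sup {f : ℝ≥0 → ℝ} (hf : Continuous f) {s l r : ℝ} (hs0 : 0 ≤ s) (hs1 : s ≤ 1)
    (hl : l < s ∨ l < 0) (hr : s < r ∨ 1 < r)
    (hmin : IsLocalMinOn (fun x : ℝ => f x.toNNReal) (Icc 0 1) s) :
    ∃ a b : ℚ, rt a ≤ rt b ∧ l < rt a ∧ (rt b : ℝ) < r ∧
      ⨆ n, - f (D (rt a) (rt b) n) = - f s.toNNReal := by
  have h := hmin.neg
  exact sup_eq_of_localMax (f := fun t => - f t) hf.neg hs0 hs1 hl hr h

lemma exists_extr {g : ℝ → ℝ} (hg : Continuous g) {q : ℝ} {a b c : ℝ} (ha : 0 ≤ a) (hc : c ≤ q)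
    (hab : a < b) (hbc : b < c) (h1 : g a < g b) (h2 : g c < g b) :
    ∃ m ∈ Ioo (0 : ℝ) q, IsLocalMax g m := by
  obtain ⟨m, hm, hmax⟩ := isCompact_Icc.exists_isMaxOn (nonempty_Icc.2 (hab.trans hbc).le)
    hg.continuousOn
  have hb : b ∈ Icc a c := ⟨hab.le, hbc.le⟩
  have hmb : g b ≤ g m := hmax hb
  have hma : m ≠ a := by rintro rfl; linarith
  have hmc : m ≠ c := by rintro rfl; linarith
  have hm' : m ∈ Ioo a c := ⟨lt_of_le_of_ne hm.1 hma.symm, lt_of_le_of_ne hm.2 hmc⟩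
  exact ⟨m, ⟨ha.trans_lt hm'.1, hm'.2.trans_le hc⟩, hmax.isLocalMax (Icc_mem_nhds hm'.1 hm'.2)⟩

theorem generic_of_good {f : ℝ≥0 → ℝ} (h : Good f) (h' : Good (fun t => - f t)) :
    Generic (fun x : ℝ => f x.toNNReal) := by
  have hcont : Continuous fun x : ℝ => f x.toNNReal := h.cont.comp continuous_real_toNNReal
  refine ⟨hcont, ?_, ?_, ?_, ?_, ?_, ?_⟩
  · have := h.ends
    simpa using this
  · intro s t hs hst ht hmax hmin heq
    obtain ⟨a, b, hab, -, hbr, hsup⟩ := sup_eq_of_localMax h.cont hs (hst.le.trans ht)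
      (l := -1) (r := (s + t) / 2) (Or.inr (by norm_num)) (Or.inl (by linarith)) hmax
    obtain ⟨c, d, hcd, hlc, -, hsup'⟩ := good_neg_sup h.cont (hs.trans hst.le) ht
      (l := (s + t) / 2) (r := 2) (Or.inl (by linarith)) (Or.inr (by norm_num)) hmin
    have hbc : rt b < rt c := by
      rw [← NNReal.coe_lt_coe]; exact hbr.trans hlc
    apply h.ne_opp a b c d hab hbc hcd
    rw [hsup, hsup', neg_neg]
    exact heq
  · intro s t hs hst ht hmin hmax heq
    obtain ⟨a, b, hab, -, hbr, hsup⟩ := good_neg_sup h.cont hs (hst.le.trans ht)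
      (l := -1) (r := (s + t) / 2) (Or.inr (by norm_num)) (Or.inl (by linarith)) hmin
    obtain ⟨c, d, hcd, hlc, -, hsup'⟩ := sup_eq_of_localMax h.cont (hs.trans hst.le) ht
      (l := (s + t) / 2) (r := 2) (Or.inl (by linarith)) (Or.inr (by norm_num)) hmax
    have hbc : rt b < rt c := by
      rw [← NNReal.coe_lt_coe]; exact hbr.trans hlc
    apply h'.ne_opp a b c d hab hbc hcd
    simp only [neg_neg]
    rw [hsup, hsup', neg_inj]
    exact heq
  · intro s t hs hst ht hmax hmax' heq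
    obtain ⟨a, b, hab, -, hbr, hsup⟩ := sup_eq_of_localMax h.cont hs (hst.le.trans ht)
      (l := -1) (r := (s + t) / 2) (Or.inr (by norm_num)) (Or.inl (by linarith)) hmax
    obtain ⟨c, d, hcd, hlc, -, hsup'⟩ := sup_eq_of_localMax h.cont (hs.trans hst.le) ht
      (l := (s + t) / 2) (r := 2) (Or.inl (by linarith)) (Or.inr (by norm_num)) hmax'
    have hbc : rt b < rt c := by
      rw [← NNReal.coe_lt_coe]; exact hbr.trans hlc
    apply h.ne_same a b c d hab hbc hcd
    rw [hsup, hsup']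
    exact heq
  · intro s t hs hst ht hmin hmin' heq
    obtain ⟨a, b, hab, -, hbr, hsup⟩ := good_neg_sup h.cont hs (hst.le.trans ht)
      (l := -1) (r := (s + t) / 2) (Or.inr (by norm_num)) (Or.inl (by linarith)) hmin
    obtain ⟨c, d, hcd, hlc, -, hsup'⟩ := good_neg_sup h.cont (hs.trans hst.le) ht
      (l := (s + t) / 2) (r := 2) (Or.inl (by linarith)) (Or.inr (by norm_num)) hmin'
    have hbc : rt b < rt c := by
      rw [← NNReal.coe_lt_coe]; exact hbr.trans hlc
    apply h'.ne_same a b c d hab hbc hcd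
    rw [hsup, hsup', neg_inj]
    exact heq
  · intro q hq hq1
    obtain ⟨p, hp1, hp2⟩ := exists_rat_btwn hq
    have hp0 : (0 : ℚ) < p := by exact_mod_cast hp1
    have hrp : ((rt p : ℝ≥0) : ℝ) = p := coe_rt hp0.le
    have hrp0 : 0 < rt p := by
      rw [← NNReal.coe_lt_coe, hrp, NNReal.coe_zero]; exact hp1
    have hm := h.not_mono p hrp0
    have ha : ¬ AntitoneOn f (Icc 0 (rt p)) := by
      intro hanti
      apply h'.not_mono p hrp0
      intro x hx y hy hxy
      have := hanti hx hy hxy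
      simp only
      linarith
    obtain ⟨a, ha', b, -, c, hc', hab, hbc, hcase⟩ :=
      not_monotoneOn_not_antitoneOn_iff_exists_lt_lt.1 ⟨hm, ha⟩
    have hcq : (c : ℝ) ≤ q := by
      have : (c : ℝ) ≤ rt p := by exact_mod_cast hc'.2
      rw [hrp] at this
      linarith
    rcases hcase with ⟨h1, h2⟩ | ⟨h1, h2⟩
    · obtain ⟨m, hm, hloc⟩ := exists_extr (g := fun x : ℝ => f x.toNNReal) hcont (q := q)
        (a := a) (b := b) (c := c) a.2 hcq (by exact_mod_cast hab) (by exact_mod_cast hbc)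
        (by simpa using h1) (by simpa using h2)
      exact ⟨m, hm, Or.inl hloc⟩
    · obtain ⟨m, hm, hloc⟩ := exists_extr (g := fun x : ℝ => - f x.toNNReal) hcont.neg (q := q)
        (a := a) (b := b) (c := c) a.2 hcq (by exact_mod_cast hab) (by exact_mod_cast hbc)
        (by simpa using h1) (by simpa using h2)
      refine ⟨m, hm, Or.inr ?_⟩
      have := hloc.neg
      simpa using this

lemma spanSet_eq_Sp (f : ℝ≥0 → ℝ) : spanSet f = Sp (fun x : ℝ => f x.toNNReal) := by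
  ext u
  constructor
  · rintro ⟨s, t, hst, ht, hf, hu⟩
    exact ⟨s, t, s.2, by exact_mod_cast hst, by exact_mod_cast ht, by simpa using hf, hu⟩
  · rintro ⟨s, t, hs, hst, ht, hf, hu⟩
    refine ⟨s.toNNReal, t.toNNReal, Real.toNNReal_le_toNNReal hst, ?_, hf, ?_⟩
    · rw [Real.toNNReal_le_one]; exact ht
    · rw [Real.coe_toNNReal _ hs, Real.coe_toNNReal _ (hs.trans hst)]; exact hu

/-- **Regularity of the Brownian span set.** Almost surely the span set
`{t - s : 0 ≤ s ≤ t ≤ 1, B s = B t}` of Brownian motion equals the closure of its interior. -/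
theorem result {Ω : Type*} {mΩ : MeasurableSpace Ω} {P : Measure Ω} {B : ℝ≥0 → Ω → ℝ}
    (hB : IsBrownianReal B P) :
    ∀ᵐ ω ∂P, spanSet (fun t => B t ω) = closure (interior (spanSet (fun t => B t ω))) := by
  filter_upwards [good_ae hB, good_ae hB.neg] with ω h1 h2
  rw [spanSet_eq_Sp]
  exact (generic_of_good h1 h2).regular.symm

end Pool.Agent.Results.MP_367e1f_pr.SpanSetRegular
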